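import Pool.Agent.Helper79.TL.Defs2

/-!
# TL-D1, TL-D3: the natural module of `2.L_3(4)` in characteristic 3
-/

set_option autoImplicit false
set_option linter.unusedSectionVars false

open Module Matrix

namespace Pool.Agent.Helper79.TL.D1

open GPre

variable {G : Type} [Group G] {D : GPre G} {F : Type} [Field F] [CharP F 3]
  {N : Representation F G (Fin 6 → F)}

theorem sum_sgn : ∀ i : Fin 6, ∑ a : Fin 16, sgn a i = if i = 5 then 16 else 0 := by
  decide

theorem exists_sgn : ∀ i : Fin 6, i ≠ 5 → ∃ a : Fin 16, sgn a i = -1 := by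
  decide

theorem sgn_five : ∀ a : Fin 16, sgn a 5 = 1 := by
  decide

omit [Group G] in
theorem three_zero : (3 : F) = 0 := by
  have := CharP.cast_eq_zero F 3
  exact_mod_cast this

theorem sixteen : (16 : F) = 1 := by
  have h : (3 : F) = 0 := three_zero
  linear_combination 5 * h

theorem two_ne : (2 : F) ≠ 0 := by
  intro h
  have h3 : (3 : F) = 0 := three_zero
  have : (1 : F) = 0 := by linear_combination h3 - h
  exact one_ne_zero this

/-- the last basis vector -/
noncomputable abbrev e5 (F : Type) [Field F] : Fin 6 → F := Pi.single 5 1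

theorem e5_five : e5 F 5 = 1 := Pi.single_eq_same 5 1

theorem e5_ne : e5 F ≠ 0 := by
  intro h
  have h3 := congrFun h 5
  rw [e5_five] at h3
  exact one_ne_zero h3

theorem E_nat (hN : NatRep D N) (u : Fin 6 → F) : D.E N u = u 5 • e5 F := by
  funext i
  have h1 : (D.E N u) i = ∑ a, (sgn a i : F) * u i := by
    rw [E_apply, Finset.sum_apply]
    exact Finset.sum_congr rfl fun a _ => hN.r a u i
  rw [h1, ← Finset.sum_mul]
  have h2 : (∑ a : Fin 16, (sgn a i : F)) = ((∑ a : Fin 16, sgn a i : ℤ) : F) := by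
    push_cast; rfl
  rw [h2, sum_sgn]
  by_cases hi : i = 5
  · subst hi
    simp [sixteen]
  · rw [if_neg hi]
    simp [hi]

theorem t_single (hN : NatRep D N) (i : Fin 6) :
    N D.t (Pi.single i 1) = Pi.single ((![1, 2, 3, 4, 0, 5] : Fin 6 → Fin 6) i) 1 := by
  funext j
  rw [hN.t, Pi.single_apply, Pi.single_apply]
  have h : ∀ i j : Fin 6, ((![4, 0, 1, 2, 3, 5] : Fin 6 → Fin 6) j = i) ↔
      j = (![1, 2, 3, 4, 0, 5] : Fin 6 → Fin 6) i := by decide
  simp only [h i j]

theorem w_single (hN : NatRep D N) : N D.w (Pi.single 5 1) = Pi.single 0 1 := by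
  funext j
  rw [hN.w, Pi.single_apply, Pi.single_apply]
  have h : ∀ j : Fin 6, ((![5, 4, 2, 3, 1, 0] : Fin 6 → Fin 6) j = 5) ↔ j = 0 := by decide
  simp only [h j]

theorem E_mem (P : Submodule F (Fin 6 → F)) (hP : ∀ g : G, ∀ v ∈ P, N g v ∈ P)
    {v : Fin 6 → F} (hv : v ∈ P) : D.E N v ∈ P := by
  rw [E_apply]
  exact Submodule.sum_mem _ fun a _ => hP _ _ hv

theorem e5_mem_of (hN : NatRep D N) (P : Submodule F (Fin 6 → F))
    (hP : ∀ g : G, ∀ v ∈ P, N g v ∈ P) {u : Fin 6 → F} (hu : u ∈ P) (h5 : u 5 ≠ 0) :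
    e5 F ∈ P := by
  have h1 : u 5 • e5 F ∈ P := by
    rw [← E_nat hN]
    exact E_mem P hP hu
  exact (Submodule.smul_mem_iff P h5).1 h1

theorem e5_mem (hN : NatRep D N) (P : Submodule F (Fin 6 → F))
    (hP : ∀ g : G, ∀ v ∈ P, N g v ∈ P) {u : Fin 6 → F} (hu : u ∈ P) (hu0 : u ≠ 0) :
    e5 F ∈ P := by
  obtain ⟨i, hi⟩ := Function.ne_iff.1 hu0
  by_cases h5 : u 5 = 0
  · have key : ∃ v ∈ P, v 0 = u i := by
      have hi5 : i ≠ 5 := by
        rintro rfl
        exact hi h5
      have e1 : (N D.t u) 0 = u 4 := hN.t u 0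
      have e2 : (N D.t u) 4 = u 3 := hN.t u 4
      have e3 : (N D.t u) 3 = u 2 := hN.t u 3
      have e4 : (N D.t u) 2 = u 1 := hN.t u 2
      have f1 : (N D.t (N D.t u)) 0 = u 3 := (hN.t _ 0).trans e2
      have f2 : (N D.t (N D.t u)) 4 = u 2 := (hN.t _ 4).trans e3
      have f3 : (N D.t (N D.t u)) 3 = u 1 := (hN.t _ 3).trans e4
      have g1 : (N D.t (N D.t (N D.t u))) 0 = u 2 := (hN.t _ 0).trans f2
      have g2 : (N D.t (N D.t (N D.t u))) 4 = u 1 := (hN.t _ 4).trans f3
      have k1 : (N D.t (N D.t (N D.t (N D.t u)))) 0 = u 1 := (hN.t _ 0).trans g2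
      have m1 := hP D.t _ hu
      have m2 := hP D.t _ m1
      have m3 := hP D.t _ m2
      have m4 := hP D.t _ m3
      fin_cases i
      · exact ⟨u, hu, rfl⟩
      · exact ⟨_, m4, k1⟩
      · exact ⟨_, m3, g1⟩
      · exact ⟨_, m2, f1⟩
      · exact ⟨_, m1, e1⟩
      · exact absurd rfl hi5
    obtain ⟨v, hv, hvi⟩ := key
    refine e5_mem_of hN P hP (hP D.w _ hv) ?_
    have : (N D.w v) 5 = v 0 := hN.w v 5
    rw [this, hvi]
    exact hi
  · exact e5_mem_of hN P hP hu h5

theorem all_single (hN : NatRep D N) (P : Submodule F (Fin 6 → F))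
    (hP : ∀ g : G, ∀ v ∈ P, N g v ∈ P) (h5 : e5 F ∈ P) (i : Fin 6) :
    (Pi.single i 1 : Fin 6 → F) ∈ P := by
  have m0 : (Pi.single 0 1 : Fin 6 → F) ∈ P := by
    rw [← w_single hN]; exact hP _ _ h5
  have m1 : (Pi.single 1 1 : Fin 6 → F) ∈ P := by
    have := hP D.t _ m0
    rwa [t_single hN] at this
  have m2 : (Pi.single 2 1 : Fin 6 → F) ∈ P := by
    have := hP D.t _ m1
    rwa [t_single hN] at this
  have m3 : (Pi.single 3 1 : Fin 6 → F) ∈ P := by
    have := hP D.t _ m2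
    rwa [t_single hN] at this
  have m4 : (Pi.single 4 1 : Fin 6 → F) ∈ P := by
    have := hP D.t _ m3
    rwa [t_single hN] at this
  fin_cases i
  exacts [m0, m1, m2, m3, m4, h5]

theorem eq_top (hN : NatRep D N) (P : Submodule F (Fin 6 → F))
    (hP : ∀ g : G, ∀ v ∈ P, N g v ∈ P) {u : Fin 6 → F} (hu : u ∈ P) (hu0 : u ≠ 0) : P = ⊤ := by
  rw [eq_top_iff]
  intro v _
  have h5 := e5_mem hN P hP hu hu0
  have h1 : v = ∑ i, v i • (Pi.single i 1 : Fin 6 → F) := by
    rw [← pi_eq_sum_univ' v]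
  rw [h1]
  exact Submodule.sum_mem _ fun i _ => P.smul_mem _ (all_single hN P hP h5 i)

/-- TL-D1 -/
theorem nat_irreducible (_hD : D.Good) (hN : NatRep D N) : N.IsIrreducible := by
  refine { exists_pair_ne := ?_, eq_bot_or_eq_top := ?_ }
  · refine ⟨⊥, ⊤, fun h => ?_⟩
    have h1 : (Pi.single 5 1 : Fin 6 → F) ∈ (⊥ : Subrepresentation N).toSubmodule := by
      rw [h]; trivial
    have h2 : (Pi.single 5 1 : Fin 6 → F) = 0 := h1
    have h3 := congrFun h2 5
    rw [Pi.single_eq_same] at h3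
    exact one_ne_zero h3
  · intro W
    by_cases hW : ∃ u ∈ W.toSubmodule, u ≠ 0
    · obtain ⟨u, hu, hu0⟩ := hW
      right
      apply Subrepresentation.toSubmodule_injective
      exact eq_top hN W.toSubmodule (fun g v hv => W.apply_mem_toSubmodule g hv) hu hu0
    · left
      push Not at hW
      apply Subrepresentation.toSubmodule_injective
      exact (Submodule.eq_bot_iff _).2 hW

/-- TL-D1 -/
theorem nat_scalar (_hD : D.Good) (hN : NatRep D N) (X : (Fin 6 → F) →ₗ[F] (Fin 6 → F))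
    (hX : ∀ g : G, X ∘ₗ N g = N g ∘ₗ X) :
    ∃ c : F, X = c • (LinearMap.id : (Fin 6 → F) →ₗ[F] (Fin 6 → F)) := by
  have hX' : ∀ (g : G) (v : Fin 6 → F), X (N g v) = N g (X v) := fun g v =>
    LinearMap.congr_fun (hX g) v
  have hE : X (D.E N (e5 F)) = D.E N (X (e5 F)) := by
    rw [E_apply, E_apply, map_sum]
    exact Finset.sum_congr rfl fun a _ => hX' _ _
  set c : F := X (e5 F) 5 with hc
  have h5 : X (e5 F) = c • e5 F := by
    rw [E_nat hN, E_nat hN, e5_five, one_smul] at hE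
    exact hE
  refine ⟨c, ?_⟩
  let P : Submodule F (Fin 6 → F) := LinearMap.eqLocus X (c • LinearMap.id)
  have hP : ∀ g : G, ∀ v ∈ P, N g v ∈ P := by
    intro g v hv
    have h1 : X v = c • v := hv
    change X (N g v) = c • (N g v)
    rw [hX', h1, map_smul]
  have h5P : e5 F ∈ P := h5
  have htop := eq_top hN P hP h5P e5_ne
  apply LinearMap.ext
  intro v
  have : v ∈ P := by rw [htop]; trivial
  exact this

theorem mem_Vl_iff (hN : NatRep D N) (v : Fin 6 → F) :
    v ∈ D.Vl N ↔ v ∈ Submodule.span F {e5 F} := by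
  rw [mem_Vl, Submodule.mem_span_singleton]
  constructor
  · rintro ⟨h1, -⟩
    refine ⟨v 5, ?_⟩
    funext i
    by_cases hi : i = 5
    · subst hi; simp
    · obtain ⟨a, ha⟩ := exists_sgn i hi
      have h2 := congrFun (h1 a) i
      rw [hN.r, ha] at h2
      have h3 : v i = 0 := by
        push_cast at h2
        have h4 : (2 : F) * v i = 0 := by linear_combination -h2
        exact (mul_eq_zero.1 h4).resolve_left two_ne
      rw [h3]
      simp [hi]
  · rintro ⟨c, rfl⟩
    refine ⟨fun a => ?_, hN.z _⟩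
    funext i
    rw [hN.r]
    by_cases hi : i = 5
    · subst hi
      rw [sgn_five]
      simp
    · simp [hi]

/-- TL-D3 -/
theorem nat_finrank (_hD : D.Good) (hN : NatRep D N) : finrank F ↥(D.Vl N) = 1 := by
  have h1 : D.Vl N = Submodule.span F {e5 F} := by
    ext v
    exact mem_Vl_iff hN v
  rw [h1]
  exact finrank_span_singleton e5_ne

end Pool.Agent.Helper79.TL.D1
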